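import Pool.Agent.RSt.Log

set_option autoImplicit false

/-!
# Hopf's chord theorem for plane continua

Store text `MP_1366af_an_rileyplan_helper29.md`, last part.
-/

namespace Pool.Agent.RSt

open Complex Filter Topology Bornology

/-- The logarithm of `(w - p) / (w - p')` on a closed half plane `σ Im w ≤ σ Im p`. -/
theorem half_log {S : Set ℂ} {p p' k : ℂ}
    (h1 : ∀ w ∈ S, k * (w - p) ∈ slitPlane) (h2 : ∀ w ∈ S, k * (w - p') ∈ slitPlane) :
    ContinuousOn (fun w => log (k * (w - p)) - log (k * (w - p'))) S ∧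
    ∀ w ∈ S, exp (log (k * (w - p)) - log (k * (w - p'))) = (w - p) / (w - p') := by
  constructor
  · apply ContinuousOn.sub
    · exact ContinuousOn.clog (continuousOn_const.mul (continuousOn_id.sub continuousOn_const)) h1
    · exact ContinuousOn.clog (continuousOn_const.mul (continuousOn_id.sub continuousOn_const)) h2
  · intro w hw
    have e1 := slitPlane_ne_zero (h1 w hw)
    have e2 := slitPlane_ne_zero (h2 w hw)
    rw [exp_sub, exp_log e1, exp_log e2]
    have hk : k ≠ 0 := left_ne_zero_of_mul e1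
    rw [mul_div_mul_left _ _ hk]

/-- Along a ray `w = c + t • k⁻¹`, the difference of logarithms tends to zero. -/
theorem log_ray (a b : ℂ) :
    Tendsto (fun t : ℝ => log (a + t) - log (b + t)) atTop (𝓝 0) := by
  have key : ∀ a : ℂ, Tendsto (fun t : ℝ => log (a + t) - Real.log t) atTop (𝓝 0) := by
    intro a
    have h0 : Tendsto (fun t : ℝ => a / (t : ℂ)) atTop (𝓝 0) := by
      have h1 : Tendsto (fun t : ℝ => (t : ℂ)⁻¹) atTop (𝓝 0) := by
        have := tendsto_inv_atTop_zero (𝕜 := ℝ)
        have h2 := (continuous_ofReal.tendsto 0).comp this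
        simpa [Function.comp_def] using h2
      simpa [div_eq_mul_inv] using h1.const_mul a
    have h1 : Tendsto (fun t : ℝ => log (a / (t : ℂ) + 1)) atTop (𝓝 0) := by
      have h2 : Tendsto (fun t : ℝ => a / (t : ℂ) + 1) atTop (𝓝 (0 + 1)) := h0.add_const 1
      rw [zero_add] at h2
      have h3 := (continuousAt_clog (show (1 : ℂ) ∈ slitPlane by simp)).tendsto.comp h2
      simpa [Function.comp_def] using h3
    refine h1.congr' ?_
    have h2 : ∀ᶠ t : ℝ in atTop, ‖a / (t : ℂ)‖ < 1 := by
      have := h0.norm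
      rw [norm_zero] at this
      exact this.eventually (gt_mem_nhds one_pos)
    filter_upwards [h2, eventually_gt_atTop 0] with t ht ht0
    have hne : a / (t : ℂ) + 1 ≠ 0 := by
      intro h
      have : a / (t : ℂ) = -1 := eq_neg_of_add_eq_zero_left h
      rw [this, norm_neg, norm_one] at ht
      exact lt_irrefl _ ht
    have ht' : (t : ℂ) ≠ 0 := by exact_mod_cast ht0.ne'
    have e : a + t = (t : ℂ) * (a / (t : ℂ) + 1) := by
      field_simp
    rw [e, log_ofReal_mul ht0 hne]
    ring
  have h := (key a).sub (key b)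
  simpa using h

theorem hopf {C : Set ℂ} (hC : IsCompact C) (hc : IsConnected C) {a b : ℝ} (ha : 0 < a)
    (hb : 0 < b) (h1 : ∀ w ∈ C, w + a ∉ C) (h2 : ∀ w ∈ C, w + b ∉ C) :
    ∀ w ∈ C, w + (a + b) ∉ C := by
  intro w0 hw0 hw1
  obtain ⟨p, hp, hpmax⟩ := hC.exists_isMaxOn hc.nonempty continuous_im.continuousOn
  obtain ⟨q, hq, hqmin⟩ := hC.exists_isMinOn hc.nonempty continuous_im.continuousOn
  have hpm : ∀ w ∈ C, w.im ≤ p.im := fun w hw => hpmax hw
  have hqm : ∀ w ∈ C, q.im ≤ w.im := fun w hw => hqmin hw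
  set N : Set ℂ := (fun w => w + (a : ℂ)) '' C with hN
  set r1 : ℝ → ℂ := fun t => p + a + t * I with hr1
  set r2 : ℝ → ℂ := fun t => q + a - t * I with hr2
  set U1 : Set ℂ := r1 '' Set.Ici 0 with hU1
  set U2 : Set ℂ := r2 '' Set.Ici 0 with hU2
  set M : Set ℂ := C ∪ (fun w => w + ((a : ℂ) + b)) '' C with hM
  have hNc : IsConnected N := hc.image _ (by fun_prop)
  have hNk : IsCompact N := hC.image (by fun_prop)
  have hMc : IsPreconnected M := by
    have hmem2 : w0 + ((a : ℂ) + b) ∈ (fun w => w + ((a : ℂ) + b)) '' C := ⟨w0, hw0, rfl⟩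
    exact IsPreconnected.union _ hw1 hmem2 hc.isPreconnected
      (hc.isPreconnected.image _ (by fun_prop))
  have hpN : p + a ∈ N := ⟨p, hp, rfl⟩
  have hqN : q + a ∈ N := ⟨q, hq, rfl⟩
  have hMim : ∀ w ∈ M, q.im ≤ w.im ∧ w.im ≤ p.im := by
    rintro w (hw | ⟨c, hc', rfl⟩)
    · exact ⟨hqm w hw, hpm w hw⟩
    · simp only [add_im, ofReal_im, add_zero]
      exact ⟨hqm c hc', hpm c hc'⟩
  have hNM : ∀ w ∈ N, w ∉ M := by
    rintro _ ⟨c, hc', rfl⟩ (h | ⟨c', hc'', h⟩)
    · exact h1 c hc' h
    · apply h2 c' hc''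
      have : c = c' + b := by
        simp only at h
        linear_combination -h
      rw [← this]; exact hc'
  have hU1M : ∀ w ∈ U1, w ∉ M := by
    rintro _ ⟨t, ht, rfl⟩ h
    rcases eq_or_lt_of_le (show (0 : ℝ) ≤ t from ht) with h0 | h0
    · rw [← h0] at h
      apply hNM _ hpN
      simpa [hr1] using h
    · have := (hMim _ h).2
      simp [hr1] at this
      linarith
  have hU2M : ∀ w ∈ U2, w ∉ M := by
    rintro _ ⟨t, ht, rfl⟩ h
    rcases eq_or_lt_of_le (show (0 : ℝ) ≤ t from ht) with h0 | h0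
    · rw [← h0] at h
      apply hNM _ hqN
      simpa [hr2] using h
    · have := (hMim _ h).1
      simp [hr2] at this
      linarith
  have hU1c : IsClosed U1 := by
    have : U1 = {w : ℂ | w.re = (p + a).re ∧ (p + a).im ≤ w.im} := by
      ext w
      constructor
      · rintro ⟨t, ht, rfl⟩
        simp only [Set.mem_Ici] at ht
        simp [hr1, ht]
      · rintro ⟨e1, e2⟩
        refine ⟨w.im - (p + a).im, by simpa using e2, ?_⟩
        apply Complex.ext
        · simp [hr1] at e1 ⊢
          linarith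
        · simp [hr1]
    rw [this]
    exact (isClosed_eq continuous_re continuous_const).inter
      (isClosed_le continuous_const continuous_im)
  have hU2c : IsClosed U2 := by
    have : U2 = {w : ℂ | w.re = (q + a).re ∧ w.im ≤ (q + a).im} := by
      ext w
      constructor
      · rintro ⟨t, ht, rfl⟩
        simp only [Set.mem_Ici] at ht
        simp [hr2, ht]
      · rintro ⟨e1, e2⟩
        refine ⟨(q + a).im - w.im, by simpa using e2, ?_⟩
        apply Complex.ext
        · simp [hr2] at e1 ⊢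
          linarith
        · simp [hr2]
    rw [this]
    exact (isClosed_eq continuous_re continuous_const).inter
      (isClosed_le continuous_im continuous_const)
  set F : Set ℂ := N ∪ U1 ∪ U2 with hF
  have hFc : IsClosed F := (hNk.isClosed.union hU1c).union hU2c
  have hdis : Disjoint M F := by
    rw [Set.disjoint_left]
    rintro w hwM ((h | h) | h)
    · exact hNM w h hwM
    · exact hU1M w h hwM
    · exact hU2M w h hwM
  have hpM : p ∈ M := Or.inl hp
  have hpM' : p + (a + b) ∈ M := Or.inr ⟨p, hp, rfl⟩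
  obtain ⟨G, hG1, hG2, hG3⟩ := logQ_of_preconnected hFc hMc hdis hpM hpM'
  have hneF : ∀ w ∈ F, w ≠ p ∧ w ≠ p + (a + b) := by
    intro w hw
    constructor
    · intro h; exact Set.disjoint_left.mp hdis (h ▸ hpM) hw
    · intro h; exact Set.disjoint_left.mp hdis (h ▸ hpM') hw
  -- lower part
  have hUc2 : IsConnected U2 := by
    refine ⟨⟨_, ⟨0, by simp, rfl⟩⟩, ?_⟩
    exact isPreconnected_Ici.image _ (by fun_prop)
  have hUc1 : IsPreconnected U1 := isPreconnected_Ici.image _ (by fun_prop)
  have hlow : IsPreconnected (N ∪ U2) :=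
    IsPreconnected.union (q + a) hqN ⟨0, by simp, by simp [hr2]⟩ hNc.isPreconnected
      hUc2.isPreconnected
  have hlowim : ∀ w ∈ N ∪ U2, w.im ≤ p.im := by
    rintro w (⟨c, hc', rfl⟩ | ⟨t, ht, rfl⟩)
    · simpa using hpm c hc'
    · simp only [Set.mem_Ici] at ht
      have := hpm q hq
      simp [hr2]
      linarith
  have hlowF : N ∪ U2 ⊆ F := by
    rintro w (h | h)
    · exact Or.inl (Or.inl h)
    · exact Or.inr h
  have slit_low : ∀ w : ℂ, ∀ y : ℂ, w.im ≤ y.im → w ≠ y → I * (w - y) ∈ slitPlane := by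
    intro w y hwy hne
    rw [mem_slitPlane_iff]
    rcases eq_or_lt_of_le hwy with h | h
    · right
      simp only [mul_im, I_re, I_im, sub_re, sub_im]
      intro h0
      apply hne
      apply Complex.ext
      · linarith
      · exact h
    · left
      simp only [mul_re, I_re, I_im, sub_re, sub_im]
      linarith
  have slit_up : ∀ w : ℂ, ∀ y : ℂ, y.im ≤ w.im → w ≠ y → -I * (w - y) ∈ slitPlane := by
    intro w y hwy hne
    have := slit_low y w hwy hne.symm
    rwa [show I * (y - w) = -I * (w - y) by ring] at this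
  have him2 : (p + ((a : ℂ) + b)).im = p.im := by simp
  obtain ⟨hA1, hA2⟩ := half_log (S := N ∪ U2) (p := p) (p' := p + (a + b)) (k := I)
    (fun w hw => slit_low w p (hlowim w hw) (hneF w (hlowF hw)).1)
    (fun w hw => slit_low w _ (by rw [him2]; exact hlowim w hw) (hneF w (hlowF hw)).2)
  obtain ⟨hB1, hB2⟩ := half_log (S := U1) (p := p) (p' := p + (a + b)) (k := -I)
    (fun w hw => slit_up w p (by
      obtain ⟨t, ht, rfl⟩ := hw
      simp only [Set.mem_Ici] at ht
      simpa [hr1] using ht) (hneF w (Or.inl (Or.inr hw))).1)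
    (fun w hw => slit_up w _ (by
      rw [him2]
      obtain ⟨t, ht, rfl⟩ := hw
      simp only [Set.mem_Ici] at ht
      simpa [hr1] using ht) (hneF w (Or.inl (Or.inr hw))).2)
  set A : ℂ → ℂ := fun w => log (I * (w - p)) - log (I * (w - (p + (a + b)))) with hA
  set B : ℂ → ℂ := fun w => log (-I * (w - p)) - log (-I * (w - (p + (a + b)))) with hB
  have hone : ∀ w ∈ F, (w - p) / (w - (p + (a + b))) ≠ 0 := by
    intro w hw
    exact div_ne_zero (sub_ne_zero.mpr (hneF w hw).1) (sub_ne_zero.mpr (hneF w hw).2)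
  -- rays go to infinity
  have ray_inf : ∀ (c k : ℂ), k ≠ 0 → Tendsto (fun t : ℝ => c + t * k) atTop (cocompact ℂ) := by
    intro c k hk
    rw [← Metric.cobounded_eq_cocompact]
    rw [← tendsto_norm_atTop_iff_cobounded]
    have h3 : Tendsto (fun t : ℝ => ‖k‖ * t - ‖c‖) atTop atTop := by
      apply tendsto_atTop_add_const_right
      exact tendsto_id.const_mul_atTop (norm_pos_iff.mpr hk)
    refine tendsto_atTop_mono' _ ?_ h3
    filter_upwards [eventually_ge_atTop 0] with t ht
    have h4 : ‖(t : ℂ) * k‖ = ‖k‖ * t := by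
      rw [norm_mul, Complex.norm_real, Real.norm_of_nonneg ht, mul_comm]
    have h5 : ‖(t : ℂ) * k‖ ≤ ‖c + t * k‖ + ‖c‖ := by
      calc ‖(t : ℂ) * k‖ = ‖(c + t * k) - c‖ := by ring_nf
        _ ≤ _ := norm_sub_le _ _
    linarith
  -- generic comparison
  have comp : ∀ (S : Set ℂ), IsPreconnected S → S ⊆ F → ∀ D : ℂ → ℂ, ContinuousOn D S →
      (∀ w ∈ S, exp (D w) = (w - p) / (w - (p + (a + b)))) → ∀ r : ℝ → ℂ,
      (∀ᶠ t : ℝ in atTop, r t ∈ S) → Tendsto r atTop (cocompact ℂ) →
      Tendsto (fun t => D (r t)) atTop (𝓝 0) → ∀ y ∈ S, G y = D y := by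
    intro S hS hSF D hD1 hD2 r hrS hr0 hrD y hy
    have hG4 : Tendsto (fun t => G (r t)) atTop (𝓝 0) := by
      apply hG3.comp
      rw [tendsto_inf]
      refine ⟨hr0, ?_⟩
      rw [tendsto_principal]
      filter_upwards [hrS] with t ht using hSF ht
    have hdiff : Tendsto (fun t => ‖G (r t) - D (r t)‖) atTop (𝓝 0) := by
      have := (hG4.sub hrD).norm
      simpa using this
    obtain ⟨t, ht1, ht2⟩ := ((hdiff.eventually (gt_mem_nhds one_pos)).and hrS).exists
    have hfe : ∀ w ∈ S, exp (G w - D w) = 1 := by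
      intro w hw
      rw [exp_sub, hG2 w (hSF hw), hD2 w hw, div_self (hone w (hSF hw))]
    have hzero : G (r t) - D (r t) = 0 := by
      have h3 := hfe _ ht2
      rw [← exp_zero] at h3
      obtain ⟨n, hn⟩ := exp_eq_exp_iff_exists_int.mp h3
      rw [zero_add] at hn
      rw [hn] at ht1 ⊢
      have h4 : n = 0 := by
        by_contra hn0
        have h5 : (1 : ℝ) ≤ |(n : ℝ)| := by
          have : 1 ≤ |n| := Int.one_le_abs hn0
          exact_mod_cast this
        rw [norm_mul, norm_mul, norm_mul, norm_I, mul_one, Complex.norm_intCast] at ht1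
        have h6 : ‖(2 : ℂ)‖ * ‖(Real.pi : ℂ)‖ = 2 * Real.pi := by
          rw [Complex.norm_real, Real.norm_of_nonneg Real.pi_pos.le]
          norm_num
        rw [h6] at ht1
        nlinarith [Real.pi_gt_three]
      rw [h4]; simp
    have := log_unique hS (f := fun w => G w - D w) ((hG1.mono hSF).sub hD1) hfe ht2 hy hzero
    exact sub_eq_zero.mp this
  have hGA : G (p + a) = A (p + a) := by
    refine comp (N ∪ U2) hlow hlowF A hA1 hA2 r2 ?_ ?_ ?_ _ (Or.inl hpN)
    · filter_upwards [eventually_ge_atTop 0] with t ht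
      exact Or.inr ⟨t, ht, rfl⟩
    · have := ray_inf (q + a) (-I) (neg_ne_zero.mpr I_ne_zero)
      refine this.congr fun t => ?_
      simp only [hr2]; ring
    · have := log_ray (I * (q + a - p)) (I * (q + a - (p + (a + b))))
      refine this.congr fun t => ?_
      simp only [hA, hr2]
      congr 2
      · linear_combination ((t : ℂ)) * I_sq
      · linear_combination ((t : ℂ)) * I_sq
  have hGB : G (p + a) = B (p + a) := by
    refine comp U1 hUc1 (fun w hw => Or.inl (Or.inr hw)) B hB1 hB2 r1 ?_ ?_ ?_ _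
      ⟨0, by simp, by simp [hr1]⟩
    · filter_upwards [eventually_ge_atTop 0] with t ht
      exact ⟨t, ht, rfl⟩
    · exact ray_inf (p + a) I I_ne_zero
    · have := log_ray (-I * (p + a - p)) (-I * (p + a - (p + (a + b))))
      refine this.congr fun t => ?_
      simp only [hB, hr1]
      congr 2
      · linear_combination ((t : ℂ)) * I_sq
      · linear_combination ((t : ℂ)) * I_sq
  have hAv : (A (p + a)).im = Real.pi := by
    have e1 : I * (p + a - p) = ((a : ℝ) : ℂ) * I := by ring
    have e2 : I * (p + a - (p + (a + b))) = ((b : ℝ) : ℂ) * -I := by ring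
    simp only [hA, sub_im, log_im]
    rw [e1, e2, arg_real_mul _ ha, arg_real_mul _ hb, arg_I, arg_neg_I]
    ring
  have hBv : (B (p + a)).im = -Real.pi := by
    have e1 : -I * (p + a - p) = ((a : ℝ) : ℂ) * -I := by ring
    have e2 : -I * (p + a - (p + (a + b))) = ((b : ℝ) : ℂ) * I := by ring
    simp only [hB, sub_im, log_im]
    rw [e1, e2, arg_real_mul _ ha, arg_real_mul _ hb, arg_I, arg_neg_I]
    ring
  rw [← hGA, hGB, hBv] at hAv
  linarith [Real.pi_pos]

/-- A compact connected set which is disjoint from its translate by `z` is disjoint from its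
translates by all positive multiples of `z`. -/
theorem hopf_multiples {K : Set ℂ} (hK : IsCompact K) (hc : IsConnected K) {z : ℂ}
    (h1 : ∀ w ∈ K, w + z ∉ K) (n : ℕ) : ∀ w ∈ K, w + (n + 1) * z ∉ K := by
  have hz : z ≠ 0 := by
    rintro rfl
    obtain ⟨w, hw⟩ := hc.nonempty
    exact h1 w hw (by simpa using hw)
  set C : Set ℂ := (fun w => w / z) '' K with hC
  have hCk : IsCompact C := hK.image (by fun_prop)
  have hCc : IsConnected C := hc.image _ (by fun_prop)
  have hmem : ∀ w, w ∈ C ↔ w * z ∈ K := by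
    intro w
    constructor
    · rintro ⟨x, hx, rfl⟩
      simpa [div_mul_cancel₀ _ hz] using hx
    · intro h
      exact ⟨w * z, h, by simp [hz]⟩
  have base : ∀ w ∈ C, w + ((1 : ℝ) : ℂ) ∉ C := by
    intro w hw
    rw [hmem] at hw ⊢
    rw [ofReal_one, add_mul, one_mul]
    exact h1 _ hw
  have main : ∀ n : ℕ, ∀ w ∈ C, w + (((n : ℝ) + 1 : ℝ) : ℂ) ∉ C := by
    intro n
    induction n with
    | zero => intro w hw; simpa using base w hw
    | succ n ih =>
      intro w hw
      have := hopf hCk hCc (a := (n : ℝ) + 1) (b := 1) (by positivity) one_pos ih base w hw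
      push_cast at this ⊢
      exact this
  intro w hw
  have hw' : w / z ∈ C := ⟨w, hw, rfl⟩
  have := main n _ hw'
  rw [hmem] at this
  rw [add_mul, div_mul_cancel₀ _ hz] at this
  push_cast at this
  exact this

end Pool.Agent.RSt
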