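import Pool.Agent.RSt.Fill

set_option autoImplicit false

/-!
# The continuum from the simple sign condition
-/

namespace Pool.Agent.RSt

open Filter Topology

theorem exists_margin {h : ℂ → ℝ} (hcont : Continuous h)
    (hinv : ∀ w, w ≠ 0 → h w⁻¹ = -h w) (h0 : 0 < h 0) {z : ℂ}
    (hz : ∀ w, 0 ≤ h w → h (z - w) < 0) :
    ∃ d : ℝ, 0 < d ∧ d < h 0 ∧ ∀ w, -d ≤ h w → h (z - w) < -d := by
  have hlim : Tendsto h (cocompact ℂ) (𝓝 (-h 0)) := by
    have h1 : Tendsto (fun w : ℂ => -h w⁻¹) (cocompact ℂ) (𝓝 (-h 0)) := by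
      apply Tendsto.neg
      apply (hcont.tendsto 0).comp
      rw [← Metric.cobounded_eq_cocompact]
      exact Filter.tendsto_inv₀_cobounded
    refine h1.congr' ?_
    have h4 : ({(0 : ℂ)} : Set ℂ)ᶜ ∈ cocompact ℂ := isCompact_singleton.compl_mem_cocompact
    filter_upwards [h4] with w hw
    rw [hinv w hw, neg_neg]
  set g : ℂ → ℝ := fun w => min (h w) (h (z - w)) with hg
  have hgc : Continuous g := hcont.min (hcont.comp (by fun_prop))
  have hgneg : ∀ w, g w < 0 := by
    intro w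
    by_cases hw : 0 ≤ h w
    · exact (min_le_right _ _).trans_lt (hz w hw)
    · exact (min_le_left _ _).trans_lt (not_le.mp hw)
  have hfar : ∀ᶠ w in cocompact ℂ, h w < -h 0 / 2 := by
    apply hlim.eventually (gt_mem_nhds _)
    linarith
  rw [← Metric.cobounded_eq_cocompact] at hfar
  obtain ⟨B, hB⟩ := (hasBasis_cobounded_norm.eventually_iff).mp hfar
  obtain ⟨w0, hw0, hmax⟩ := (isCompact_closedBall (0 : ℂ) (max B 0)).exists_isMaxOn
    ⟨0, by simp⟩ hgc.continuousOn
  refine ⟨min (-g w0 / 2) (h 0 / 4), ?_, ?_, ?_⟩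
  · apply lt_min
    · linarith [hgneg w0]
    · linarith
  · apply (min_le_right _ _).trans_lt
    linarith
  · intro w hw
    set d := min (-g w0 / 2) (h 0 / 4) with hd
    have hdpos : 0 < d := by
      apply lt_min
      · linarith [hgneg w0]
      · linarith
    have hd1 : d ≤ -g w0 / 2 := min_le_left _ _
    have hd2 : d ≤ h 0 / 4 := min_le_right _ _
    have key : g w < -d := by
      by_cases hwB : ‖w‖ ≤ max B 0
      · have h1 : g w ≤ g w0 := hmax (by simpa using hwB)
        have := hgneg w0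
        linarith
      · push Not at hwB
        have h1 : h w < -h 0 / 2 := hB.2 (show w ∈ {x : ℂ | B ≤ ‖x‖} from (le_max_left _ _).trans hwB.le)
        have h2 : g w ≤ h w := min_le_left _ _
        linarith
    rcases min_lt_iff.mp key with h1 | h1
    · linarith
    · exact h1

/-- The self-dual continuum of an odd function with the simple sign condition. -/
theorem exists_continuum_of_sign {h : ℂ → ℝ} (hcont : Continuous h) (heven : ∀ w, h (-w) = h w)
    (hinv : ∀ w, w ≠ 0 → h w⁻¹ = -h w) (h0 : 0 < h 0) {z : ℂ}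
    (hz : ∀ w, 0 ≤ h w → h (z - w) < 0) :
    ∃ K : Set ℂ, IsCompact K ∧ IsConnected K ∧ (0 : ℂ) ∈ K ∧ (∀ w ∈ K, -w ∈ K) ∧
      (∀ w, w ≠ 0 → w ∈ K ∨ w⁻¹ ∈ K) ∧ (∀ w ∈ K, w + z ∉ K) ∧ IsConnected Kᶜ := by
  obtain ⟨d, hd, hd0, hd1⟩ := exists_margin hcont hinv h0 hz
  exact exists_continuum hcont heven hinv hd hd0 hd1

end Pool.Agent.RSt
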