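import Pool.Agent.RSt.Walk

set_option autoImplicit false

/-!
# Odd functions have a connected set of near zeros from the fixed point to infinity

Store text `MP_1366af_an_rileyplan_helper29.md`, Lemma A.
-/

namespace Pool.Agent.RSt

open Complex Filter Topology Bornology

/-- The point `exp (i π / 3)`. -/
noncomputable def WC : ℂ := ⟨1 / 2, √3 / 2⟩

/-- The physical position of a lattice point. -/
noncomputable def pos (e : ℝ) (a : ℤ × ℤ) : ℂ := (e : ℂ) * ((a.1 : ℂ) + (a.2 : ℂ) * WC - 1 / 2)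

theorem pos_re (e : ℝ) (a : ℤ × ℤ) : (pos e a).re = e * (a.1 + a.2 / 2 - 1 / 2) := by
  simp [pos, WC]
  ring_nf
  simp

theorem pos_im (e : ℝ) (a : ℤ × ℤ) : (pos e a).im = e * (a.2 * (√3 / 2)) := by
  simp [pos, WC]

theorem pos_neg (e : ℝ) (a : ℤ × ℤ) : pos e ((1, 0) - a) = -pos e a := by
  simp only [pos, Prod.fst_sub, Prod.snd_sub]
  push_cast
  ring

theorem norm_unit {d : ℤ × ℤ} (h : nf d = 1) : ‖(d.1 : ℂ) + (d.2 : ℂ) * WC‖ = 1 := by
  have h1 : ‖(d.1 : ℂ) + (d.2 : ℂ) * WC‖ ^ 2 = 1 := by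
    rw [← Complex.normSq_eq_norm_sq, Complex.normSq_apply]
    have e1 : ((d.1 : ℂ) + (d.2 : ℂ) * WC).re = d.1 + d.2 * (1 / 2) := by simp [WC]
    have e2 : ((d.1 : ℂ) + (d.2 : ℂ) * WC).im = d.2 * (√3 / 2) := by simp [WC]
    rw [e1, e2]
    have h3 : (√3 : ℝ) * √3 = 3 := Real.mul_self_sqrt (by norm_num)
    have h4 : ((nf d : ℤ) : ℝ) = 1 := by exact_mod_cast congrArg (fun x : ℤ => (x : ℝ)) h
    simp only [nf] at h4
    push_cast at h4
    linear_combination h4 + (d.2 : ℝ) ^ 2 / 4 * h3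
  have h2 := norm_nonneg ((d.1 : ℂ) + (d.2 : ℂ) * WC)
  nlinarith

theorem pos_step (e : ℝ) (he : 0 ≤ e) (a d : ℤ × ℤ) (h : nf d = 1) :
    ‖pos e (a + d) - pos e a‖ = e := by
  have : pos e (a + d) - pos e a = (e : ℂ) * ((d.1 : ℂ) + (d.2 : ℂ) * WC) := by
    simp only [pos, Prod.fst_add, Prod.snd_add]
    push_cast
    ring
  rw [this, norm_mul, norm_unit h, mul_one, Complex.norm_real, Real.norm_of_nonneg he]

/-- The sign rule. -/
noncomputable def sgn (H : ℂ → ℝ) (e : ℝ) (a : ℤ × ℤ) : Bool :=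
  if 0 < H (pos e a) then true else if H (pos e a) < 0 then false
  else decide (0 < a.2 ∨ (a.2 = 0 ∧ 1 ≤ a.1))

theorem sgn_odd {H : ℂ → ℝ} (hodd : ∀ v, H (-v) = -H v) (e : ℝ) (a : ℤ × ℤ) :
    sgn H e ((1, 0) - a) = !sgn H e a := by
  unfold sgn
  rw [pos_neg, hodd]
  rcases lt_trichotomy (H (pos e a)) 0 with h | h | h
  · simp [h, h.not_gt]
  · simp only [h, neg_zero, lt_irrefl, if_false, Prod.snd_sub, Prod.fst_sub]
    rw [← decide_not, decide_eq_decide]
    omega
  · simp [h, h.not_gt]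

theorem sgn_true {H : ℂ → ℝ} {e : ℝ} {a : ℤ × ℤ} (h : sgn H e a = true) : 0 ≤ H (pos e a) := by
  unfold sgn at h
  split_ifs at h with h1 h2
  · exact h1.le
  · exact not_lt.mp h2

theorem sgn_false {H : ℂ → ℝ} {e : ℝ} {a : ℤ × ℤ} (h : sgn H e a = false) :
    H (pos e a) ≤ 0 := by
  unfold sgn at h
  split_ifs at h with h1 h2
  · exact h2.le
  · exact not_lt.mp h1

/-- Lemma A. -/
theorem walk_connected {H : ℂ → ℝ} (hu : UniformContinuous H) (hodd : ∀ v, H (-v) = -H v)
    {d : ℝ} (hd : 0 < d) (R : ℝ) :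
    ∃ C : Set ℂ, IsPreconnected C ∧ 0 ∈ C ∧ (∀ v ∈ C, |H v| ≤ d) ∧ ∃ v ∈ C, R < ‖v‖ := by
  obtain ⟨δ, hδ, hH⟩ := Metric.uniformContinuous_iff.mp hu (d / 2) (by positivity)
  have hH' : ∀ x y : ℂ, ‖x - y‖ < δ → |H x - H y| < d / 2 := by
    intro x y h
    have := @hH x y (by simpa [dist_eq_norm] using h)
    simpa [Real.dist_eq] using this
  set e : ℝ := δ / 2 with he
  have he0 : 0 < e := by positivity
  have heδ : e < δ := by rw [he]; linarith
  have h00 : H 0 = 0 := by
    have := hodd 0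
    rw [neg_zero] at this
    linarith
  set s : ℤ × ℤ → Bool := sgn H e with hs
  have hsodd : ∀ a, s ((1, 0) - a) = !s a := sgn_odd hodd e
  obtain ⟨x, hx, hx0⟩ : ∃ x, Val s x ∧ (x = ((0, 0), (1, 0)) ∨ x = ((1, 0), (-1, 0))) := by
    have h1 : s (1, 0) = !s (0, 0) := by
      have := hsodd (0, 0)
      simpa using this
    rcases Bool.eq_false_or_eq_true (s (0, 0)) with h | h
    · refine ⟨((0, 0), (1, 0)), ⟨h, ?_, by norm_num [nf]⟩, Or.inl rfl⟩
      simpa [h] using h1
    · refine ⟨((1, 0), (-1, 0)), ⟨?_, ?_, by norm_num [nf]⟩, Or.inr rfl⟩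
      · simpa [h] using h1
      · simpa using h
  set y : ℕ → (ℤ × ℤ) × (ℤ × ℤ) := fun n => (nxt s)^[n] x with hy
  have hval : ∀ n, Val s (y n) := fun n => val_iter hx n
  set q : ℕ → ℂ := fun n => pos e (y n).1 with hq
  have hqH : ∀ n, |H (q n)| < d / 2 := by
    intro n
    obtain ⟨v1, v2, v3⟩ := hval n
    have h1 := sgn_true v1
    have h2 := sgn_false v2
    have h3 := hH' (pos e ((y n).1 + (y n).2)) (q n) (by
      rw [hq]; simp only; rw [pos_step e he0.le _ _ v3]; exact heδ)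
    rw [abs_lt] at h3 ⊢
    constructor
    · have : 0 ≤ H (q n) := h1
      linarith
    · linarith [h3.1]
  have hstep : ∀ n, ‖q (n + 1) - q n‖ ≤ e := by
    intro n
    obtain ⟨v1, v2, v3⟩ := hval n
    have h1 : y (n + 1) = nxt s (y n) := by
      simp only [hy]
      rw [Function.iterate_succ_apply']
    have h2 : (y (n + 1)).1 = (y n).1 + om (y n).2 ∨ (y (n + 1)).1 = (y n).1 := by
      rw [h1]
      unfold nxt
      split_ifs with h
      · left; rfl
      · right; rfl
    rcases h2 with h | h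
    · simp only [hq, h]
      rw [pos_step e he0.le _ _ (by rw [nf_om]; exact v3)]
    · simp only [hq, h, sub_self, norm_zero]
      exact he0.le
  have hseg : ∀ a b : ℂ, ‖b - a‖ ≤ e → |H a| < d / 2 → ∀ v ∈ segment ℝ a b, |H v| ≤ d := by
    intro a b hab ha v hv
    have h1 : ‖v - a‖ ≤ ‖b - a‖ := by
      obtain ⟨u, w, hu0, hw0, huw, rfl⟩ := hv
      have : u • a + w • b - a = w • (b - a) := by
        have : u = 1 - w := by linarith
        rw [this, sub_smul, one_smul, smul_sub]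
        ring
      rw [this, norm_smul, Real.norm_of_nonneg hw0]
      have : w ≤ 1 := by linarith
      nlinarith [norm_nonneg (b - a)]
    have h2 := hH' v a (by linarith)
    rw [abs_lt] at h2 ha
    rw [abs_le]
    constructor <;> linarith [h2.1, h2.2, ha.1, ha.2]
  have hq0 : ‖q 0‖ ≤ e := by
    have : y 0 = x := rfl
    simp only [hq, this]
    rcases hx0 with h | h
    · have e1 : pos e x.1 = -((e / 2 : ℝ) : ℂ) := by
        rw [h]; simp only [pos]; push_cast; ring
      rw [e1, norm_neg, Complex.norm_real, Real.norm_of_nonneg (by positivity)]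
      linarith
    · have e1 : pos e x.1 = ((e / 2 : ℝ) : ℂ) := by
        rw [h]; simp only [pos]; push_cast; ring
      rw [e1, Complex.norm_real, Real.norm_of_nonneg (by positivity)]
      linarith
  set C : Set ℂ := segment ℝ 0 (q 0) ∪ ⋃ n, segment ℝ (q n) (q (n + 1)) with hC
  have hsegc : ∀ a b : ℂ, IsPreconnected (segment ℝ a b) := fun a b =>
    (convex_segment a b).isPreconnected
  have hqC : ∀ n, q n ∈ C := fun n =>
    Or.inr (Set.mem_iUnion.mpr ⟨n, left_mem_segment ℝ _ _⟩)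
  refine ⟨C, ?_, Or.inl (left_mem_segment ℝ _ _), ?_, ?_⟩
  · have hm : q 0 ∈ ⋃ n, segment ℝ (q n) (q (n + 1)) :=
      Set.mem_iUnion.mpr ⟨0, left_mem_segment ℝ _ _⟩
    refine IsPreconnected.union (q 0) (right_mem_segment ℝ _ _) hm (hsegc _ _) ?_
    apply IsPreconnected.iUnion_of_chain
    · intro n; exact hsegc _ _
    · intro n
      exact ⟨q (n + 1), right_mem_segment ℝ _ _, left_mem_segment ℝ _ _⟩
  · rintro v (hv | hv)
    · exact hseg 0 (q 0) (by simpa using hq0) (by rw [h00]; simpa using hd) v hv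
    · obtain ⟨n, hn⟩ := Set.mem_iUnion.mp hv
      exact hseg _ _ (hstep n) (hqH n) v hn
  · -- unbounded
    set R' : ℝ := |R| with hR'
    have hR0 : 0 ≤ R' := abs_nonneg R
    obtain ⟨B, hB⟩ := exists_nat_ge (2 * R' / e + 1)
    obtain ⟨n, hn⟩ := unbdd hsodd hx hx0 B
    refine ⟨q n, hqC n, ?_⟩
    by_contra hcon
    push Not at hcon
    have hle : ‖q n‖ ≤ R' := hcon.trans (le_abs_self R)
    have hre := (abs_re_le_norm (q n)).trans hle
    have him := (abs_im_le_norm (q n)).trans hle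
    have e1 : (q n).re = e * ((y n).1.1 + (y n).1.2 / 2 - 1 / 2) := pos_re e _
    have e2 : (q n).im = e * ((y n).1.2 * (√3 / 2)) := pos_im e _
    rw [e1] at hre
    rw [e2] at him
    set A1 : ℝ := ((y n).1.1 : ℝ) with hA1
    set A2 : ℝ := ((y n).1.2 : ℝ) with hA2
    have hs3 : 1 ≤ √3 := by
      rw [show (1 : ℝ) = √1 by simp]
      exact Real.sqrt_le_sqrt (by norm_num)
    have hA2b : |A2| ≤ 2 * R' / e := by
      rw [le_div_iff₀ he0]
      rw [abs_mul, abs_mul, abs_of_pos he0, abs_of_pos (show 0 < √3 / 2 by positivity)] at him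
      have : |A2| * (1 / 2) ≤ |A2| * (√3 / 2) :=
        mul_le_mul_of_nonneg_left (by linarith) (abs_nonneg _)
      nlinarith
    have hA1b : |A1 + A2 / 2 - 1 / 2| ≤ R' / e := by
      rw [le_div_iff₀ he0]
      rw [abs_mul, abs_of_pos he0] at hre
      linarith
    have hA1c : |A1| ≤ 2 * R' / e + 1 := by
      have h1 : |A2| / 2 ≤ R' / e := by
        have : 2 * R' / e = 2 * (R' / e) := by ring
        rw [this] at hA2b
        linarith
      have h2 : |A1| ≤ |A1 + A2 / 2 - 1 / 2| + |A2| / 2 + 1 / 2 := by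
        rw [abs_le]
        have a1 := abs_le.mp (le_refl |A1 + A2 / 2 - 1 / 2|)
        have a2 := abs_le.mp (le_refl |A2|)
        constructor <;> linarith [a1.1, a1.2, a2.1, a2.2]
      have : 2 * R' / e = R' / e + R' / e := by ring
      rw [this]
      linarith
    rcases hn with h | h
    · have h' : (B : ℝ) < |A1| := by
        have h3 : ((B : ℤ) : ℝ) < ((|(y n).1.1| : ℤ) : ℝ) := by exact_mod_cast h
        rw [Int.cast_abs] at h3
        simpa using h3
      linarith
    · have h' : (B : ℝ) < |A2| := by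
        have h3 : ((B : ℤ) : ℝ) < ((|(y n).1.2| : ℤ) : ℝ) := by exact_mod_cast h
        rw [Int.cast_abs] at h3
        simpa using h3
      linarith

/-- Lemma A in the `w`-plane. -/
theorem connect_one_neg_one {h : ℂ → ℝ} (hc : Continuous h) (hinv : ∀ w, w ≠ 0 → h w⁻¹ = -h w)
    {d : ℝ} (hd : 0 < d) (hd0 : d < |h 0|) :
    ∃ C : Set ℂ, IsPreconnected C ∧ 1 ∈ C ∧ -1 ∈ C ∧ ∀ w ∈ C, |h w| ≤ d := by
  classical
  set g1 : ℂ → ℝ := fun v => h ((1 + v) / (1 - v)) with hg1
  set g2 : ℂ → ℝ := fun v => -h ((1 - v) / (1 + v)) with hg2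
  set H : ℂ → ℝ := fun v => if v = 1 then -h 0 else g1 v with hH
  have hg12 : ∀ v : ℂ, v ≠ 1 → v ≠ -1 → g1 v = g2 v := by
    intro v h1 h2
    have a1 : 1 - v ≠ 0 := sub_ne_zero.mpr h1.symm
    have a2 : 1 + v ≠ 0 := by
      intro h; apply h2; linear_combination h
    have := hinv ((1 - v) / (1 + v)) (div_ne_zero a1 a2)
    rw [inv_div] at this
    exact this
  have hH1 : ∀ v, v ≠ 1 → H v = g1 v := fun v hv => by simp [hH, hv]
  have hH2 : ∀ v, v ≠ -1 → H v = g2 v := by
    intro v hv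
    by_cases h1 : v = 1
    · subst h1; simp [hH, hg2]
    · rw [hH1 v h1, hg12 v h1 hv]
  have hcont1 : ∀ v : ℂ, v ≠ 1 → ContinuousAt H v := by
    intro v hv
    have h1 : ContinuousAt g1 v := by
      apply hc.continuousAt.comp
      exact ContinuousAt.div (by fun_prop) (by fun_prop) (sub_ne_zero.mpr hv.symm)
    apply h1.congr
    filter_upwards [isOpen_ne.mem_nhds hv] with u hu
    exact (hH1 u hu).symm
  have hcont2 : ∀ v : ℂ, v ≠ -1 → ContinuousAt H v := by
    intro v hv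
    have h1 : ContinuousAt g2 v := by
      apply ContinuousAt.neg
      apply hc.continuousAt.comp
      exact ContinuousAt.div (by fun_prop) (by fun_prop) (by
        intro h; apply hv; linear_combination h)
    apply h1.congr
    filter_upwards [isOpen_ne.mem_nhds hv] with u hu
    exact (hH2 u hu).symm
  have hHc : Continuous H := by
    rw [continuous_iff_continuousAt]
    intro v
    by_cases hv : v = 1
    · apply hcont2
      rw [hv]
      intro h
      have := congrArg re h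
      norm_num at this
    · exact hcont1 v hv
  have hodd : ∀ v, H (-v) = -H v := by
    intro v
    have one_ne : (1 : ℂ) ≠ -1 := by
      intro h
      have := congrArg re h
      norm_num at this
    by_cases hv : v = 1
    · subst hv
      rw [hH1 (-1) one_ne.symm]
      simp [hH, hg1]
    · have hnv : -v ≠ -1 := fun h => hv (neg_injective h)
      rw [hH2 (-v) hnv, hH1 v hv]
      simp only [hg1, hg2]
      rw [sub_neg_eq_add, ← sub_eq_add_neg]
  have hh1 : h (-1) = 0 := by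
    have := hinv (-1) (by norm_num)
    rw [inv_neg, inv_one] at this
    linarith
  have hlim : Tendsto H (cocompact ℂ) (𝓝 0) := by
    have h1 : Tendsto (fun v : ℂ => (1 + v) / (1 - v)) (cocompact ℂ) (𝓝 (-1)) := by
      have h2 : Tendsto (fun v : ℂ => 2 * (1 - v)⁻¹) (cocompact ℂ) (𝓝 (2 * 0)) := by
        apply Tendsto.const_mul
        apply (Filter.tendsto_inv₀_cobounded (α := ℂ)).comp
        rw [Metric.cobounded_eq_cocompact]
        exact (Homeomorph.subLeft (1 : ℂ)).isClosedEmbedding.tendsto_cocompact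
      have h3 := h2.sub_const 1
      rw [mul_zero, zero_sub] at h3
      refine h3.congr' ?_
      have h4 : ∀ᶠ v in cocompact ℂ, v ≠ (1 : ℂ) := by
        have : ({(1 : ℂ)} : Set ℂ)ᶜ ∈ cocompact ℂ := isCompact_singleton.compl_mem_cocompact
        filter_upwards [this] with v hv using hv
      filter_upwards [h4] with v hv
      have a1 : 1 - v ≠ 0 := sub_ne_zero.mpr hv.symm
      field_simp
      ring
    have h2 : Tendsto g1 (cocompact ℂ) (𝓝 (h (-1))) := (hc.tendsto (-1)).comp h1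
    rw [hh1] at h2
    refine h2.congr' ?_
    have h4 : ({(1 : ℂ)} : Set ℂ)ᶜ ∈ cocompact ℂ := isCompact_singleton.compl_mem_cocompact
    filter_upwards [h4] with v hv
    exact (hH1 v hv).symm
  have hHu : UniformContinuous H := hHc.uniformContinuous_of_tendsto_cocompact hlim
  -- a ball around -1
  obtain ⟨r, hr, hball⟩ : ∃ r > 0, ∀ w : ℂ, ‖w + 1‖ < r → |h w| ≤ d := by
    have h1 : ∀ᶠ w in 𝓝 (-1 : ℂ), |h w| < d := by
      have : Tendsto (fun w => |h w|) (𝓝 (-1 : ℂ)) (𝓝 |h (-1)|) := (hc.tendsto (-1)).abs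
      rw [hh1, abs_zero] at this
      exact this.eventually (gt_mem_nhds hd)
    obtain ⟨r, hr, h2⟩ := Metric.eventually_nhds_iff.mp h1
    refine ⟨r, hr, fun w hw => (h2 ?_).le⟩
    rw [dist_eq_norm, sub_neg_eq_add]
    exact hw
  obtain ⟨C, hC1, hC2, hC3, v, hvC, hv⟩ := walk_connected hHu hodd hd (1 + 2 / r)
  have hne : ∀ u ∈ C, u ≠ 1 := by
    rintro u hu rfl
    have := hC3 1 hu
    simp only [hH, if_true, abs_neg] at this
    linarith
  set D : Set ℂ := (fun v => (1 + v) / (1 - v)) '' C with hD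
  have hDc : IsPreconnected D := by
    apply hC1.image
    apply ContinuousOn.div (by fun_prop) (by fun_prop)
    intro u hu
    exact sub_ne_zero.mpr (hne u hu).symm
  have hDh : ∀ w ∈ D, |h w| ≤ d := by
    rintro _ ⟨u, hu, rfl⟩
    have := hC3 u hu
    rw [hH1 u (hne u hu)] at this
    exact this
  have hD1 : (1 : ℂ) ∈ D := ⟨0, hC2, by simp⟩
  have hDv : (1 + v) / (1 - v) ∈ D := ⟨v, hvC, rfl⟩
  have hclose : ‖(1 + v) / (1 - v) + 1‖ < r := by
    have a1 : 1 - v ≠ 0 := sub_ne_zero.mpr (hne v hvC).symm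
    have e1 : (1 + v) / (1 - v) + 1 = 2 / (1 - v) := by field_simp; ring
    have h2 : 2 / r < ‖1 - v‖ := by
      have : ‖v‖ ≤ ‖1 - v‖ + 1 := by
        calc ‖v‖ = ‖1 - (1 - v)‖ := by ring_nf
          _ ≤ ‖(1 : ℂ)‖ + ‖1 - v‖ := norm_sub_le _ _
          _ = _ := by rw [norm_one]; ring
      linarith
    have h3 : 0 < ‖1 - v‖ := norm_pos_iff.mpr a1
    rw [e1, norm_div, show ‖(2 : ℂ)‖ = 2 by norm_num, div_lt_iff₀ h3]
    rw [div_lt_iff₀ hr] at h2
    linarith
  refine ⟨D ∪ Metric.ball (-1) r, ?_, Or.inl hD1, Or.inr (Metric.mem_ball_self hr), ?_⟩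
  · refine IsPreconnected.union _ hDv ?_ hDc (convex_ball (-1 : ℂ) r).isPreconnected
    rw [Metric.mem_ball, dist_eq_norm, sub_neg_eq_add]
    exact hclose
  · rintro w (hw | hw)
    · exact hDh w hw
    · apply hball
      rw [Metric.mem_ball, dist_eq_norm, sub_neg_eq_add] at hw
      exact hw

end Pool.Agent.RSt
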