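import Pool.Agent.RSt.Log
import Pool.Agent.RSt.Conn

set_option autoImplicit false

/-!
# Filling a continuum, and the self-dual continuum of a Lyapunov function

Store text `MP_1366af_an_rileyplan_helper29.md`, Construction.
-/

namespace Pool.Agent.RSt

open Complex Filter Topology Bornology

/-- The unbounded component of the complement of `c` (which lies in the ball of radius `R`). -/
def unb (c : Set ℂ) (R : ℝ) : Set ℂ := connectedComponentIn cᶜ ((R + 1 : ℝ) : ℂ)

/-- The filled continuum. -/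
def fil (c : Set ℂ) (R : ℝ) : Set ℂ := (unb c R)ᶜ

theorem isPreconnected_far (R : ℝ) : IsPreconnected {w : ℂ | R < ‖w‖} := by
  rcases lt_or_ge R 0 with hR | hR
  · have : {w : ℂ | R < ‖w‖} = Set.univ := by
      ext w; simpa using lt_of_lt_of_le hR (norm_nonneg w)
    rw [this]; exact isPreconnected_univ
  · have h1 : IsPreconnected (Set.Ioi R ×ˢ (Set.univ : Set ℝ)) :=
      isPreconnected_Ioi.prod isPreconnected_univ
    have h2 := h1.image (fun p : ℝ × ℝ => (p.1 : ℂ) * exp (p.2 * I)) (by fun_prop)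
    have h3 : (fun p : ℝ × ℝ => (p.1 : ℂ) * exp (p.2 * I)) '' (Set.Ioi R ×ˢ (Set.univ : Set ℝ))
        = {w : ℂ | R < ‖w‖} := by
      ext w
      constructor
      · rintro ⟨⟨r, t⟩, ⟨hr, -⟩, rfl⟩
        simp only [Set.mem_Ioi] at hr
        simp only [Set.mem_ofPred_eq, norm_mul, norm_exp_ofReal_mul_I, mul_one, Complex.norm_real]
        rwa [Real.norm_of_nonneg (hR.trans hr.le)]
      · intro hw
        refine ⟨(‖w‖, arg w), ⟨hw, trivial⟩, ?_⟩
        exact norm_mul_exp_arg_mul_I w
    rwa [h3] at h2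

section fill

variable {c : Set ℂ} {R : ℝ}

theorem far_subset_unb (hR : 0 ≤ R) (hc : ∀ w ∈ c, ‖w‖ ≤ R) : {w : ℂ | R < ‖w‖} ⊆ unb c R := by
  apply (isPreconnected_far R).subset_connectedComponentIn
  · simp only [Set.mem_ofPred_eq, Complex.norm_real]
    rw [Real.norm_of_nonneg (by linarith)]
    linarith
  · intro w hw hwc
    exact absurd (hc w hwc) (not_le.mpr hw)

theorem unb_subset_compl : unb c R ⊆ cᶜ := connectedComponentIn_subset _ _

theorem subset_fil : c ⊆ fil c R := fun _ hw hu => unb_subset_compl hu hw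

theorem unb_preconnected : IsPreconnected (unb c R) := isPreconnected_connectedComponentIn

theorem unb_open (hcl : IsClosed c) : IsOpen (unb c R) := hcl.isOpen_compl.connectedComponentIn

theorem unb_maximal (_hR : 0 ≤ R) (_hc : ∀ w ∈ c, ‖w‖ ≤ R) {V : Set ℂ} (hV : IsPreconnected V)
    (hVc : V ⊆ cᶜ) {x : ℂ} (hx : x ∈ V) (hxu : x ∈ unb c R) : V ⊆ unb c R := by
  have h1 : unb c R = connectedComponentIn cᶜ x := connectedComponentIn_eq hxu
  rw [h1]
  exact hV.subset_connectedComponentIn hx hVc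

theorem fil_compact (hcl : IsClosed c) (hR : 0 ≤ R) (hc : ∀ w ∈ c, ‖w‖ ≤ R) :
    IsCompact (fil c R) := by
  rw [Metric.isCompact_iff_isClosed_bounded]
  refine ⟨(unb_open hcl).isClosed_compl, ?_⟩
  rw [isBounded_iff_forall_norm_le]
  refine ⟨R, fun w hw => ?_⟩
  by_contra hlt
  push Not at hlt
  exact hw (far_subset_unb hR hc hlt)

theorem unb_not_bounded (hR : 0 ≤ R) (hc : ∀ w ∈ c, ‖w‖ ≤ R) : ¬ IsBounded (unb c R) := by
  intro h
  obtain ⟨B, hB⟩ := (isBounded_iff_forall_norm_le).mp h
  have h1 : (((max R B) + 1 : ℝ) : ℂ) ∈ unb c R := by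
    apply far_subset_unb hR hc
    simp only [Set.mem_ofPred_eq, Complex.norm_real]
    have := le_max_left R B
    rw [Real.norm_of_nonneg (by linarith)]
    linarith
  have h2 := hB _ h1
  rw [Complex.norm_real, Real.norm_of_nonneg (by linarith [le_max_left R B])] at h2
  linarith [le_max_right R B]

/-- The component of a point of the filled set outside `c`. -/
theorem comp_subset_fil (hR : 0 ≤ R) (hc : ∀ w ∈ c, ‖w‖ ≤ R) {w : ℂ} (hw : w ∈ fil c R) :
    connectedComponentIn cᶜ w ⊆ fil c R := by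
  intro y hy hyu
  have h1 : w ∈ cᶜ := connectedComponentIn_nonempty_iff.mp ⟨y, hy⟩
  exact hw (unb_maximal hR hc isPreconnected_connectedComponentIn
    (connectedComponentIn_subset _ _) hy hyu (mem_connectedComponentIn h1))

theorem diff_subset_interior (hcl : IsClosed c) (hR : 0 ≤ R) (hc : ∀ w ∈ c, ‖w‖ ≤ R) {w : ℂ}
    (hw : w ∈ fil c R) (hwc : w ∉ c) : w ∈ interior (fil c R) := by
  rw [mem_interior]
  exact ⟨_, comp_subset_fil hR hc hw, hcl.isOpen_compl.connectedComponentIn,
    mem_connectedComponentIn hwc⟩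

theorem fil_connected (hcl : IsClosed c) (hcc : IsConnected c) (hR : 0 ≤ R)
    (hc : ∀ w ∈ c, ‖w‖ ≤ R) : IsConnected (fil c R) := by
  obtain ⟨p, hp⟩ := hcc.nonempty
  refine ⟨⟨p, subset_fil hp⟩, ?_⟩
  apply isPreconnected_of_forall p
  intro w hw
  by_cases hwc : w ∈ c
  · exact ⟨c, subset_fil, hp, hwc, hcc.isPreconnected⟩
  · set V := connectedComponentIn cᶜ w with hV
    have hwV : w ∈ V := mem_connectedComponentIn hwc
    have hVo : IsOpen V := hcl.isOpen_compl.connectedComponentIn
    have hVf : V ⊆ fil c R := comp_subset_fil hR hc hw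
    obtain ⟨x, hx, hxV⟩ : ∃ x ∈ closure V, x ∉ V := by
      by_contra hcon
      push Not at hcon
      have hcl' : IsClosed V := closure_subset_iff_isClosed.mp hcon
      have h1 : V = Set.univ := IsClopen.eq_univ ⟨hcl', hVo⟩ ⟨w, hwV⟩
      have h2 : p ∈ V := by rw [h1]; trivial
      exact (connectedComponentIn_subset _ _ h2) hp
    have hxc : x ∈ c := by
      by_contra hxc
      have h1 : IsOpen (connectedComponentIn cᶜ x) := hcl.isOpen_compl.connectedComponentIn
      obtain ⟨y, hy1, hy2⟩ := mem_closure_iff.mp hx _ h1 (mem_connectedComponentIn hxc)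
      have h2 : connectedComponentIn cᶜ x = connectedComponentIn cᶜ y :=
        connectedComponentIn_eq hy1
      have h3 : V = connectedComponentIn cᶜ y := connectedComponentIn_eq hy2
      apply hxV
      rw [h3, ← h2]
      exact mem_connectedComponentIn hxc
    have h4 : IsPreconnected (V ∪ {x}) := by
      apply IsPreconnected.subset_closure isPreconnected_connectedComponentIn
        Set.subset_union_left
      intro y hy
      rcases hy with hy | hy
      · exact subset_closure hy
      · rw [Set.mem_singleton_iff.mp hy]; exact hx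
    refine ⟨(V ∪ {x}) ∪ c, ?_, Or.inr hp, Or.inl (Or.inl hwV), ?_⟩
    · rintro y ((hy | hy) | hy)
      · exact hVf hy
      · rw [Set.mem_singleton_iff.mp hy]; exact subset_fil hxc
      · exact subset_fil hy
    · exact IsPreconnected.union x (Or.inr rfl) hxc h4 hcc.isPreconnected

end fill

/-- A symmetric self-inverse continuum which misses its translate by `z`: the filled set. -/
theorem exists_fill {c : Set ℂ} (hck : IsCompact c) (hcc : IsConnected c) (h0c : (0 : ℂ) ∉ c)
    (hcneg : ∀ w ∈ c, -w ∈ c) (hcinv : ∀ w ∈ c, w⁻¹ ∈ c) {z : ℂ} (hcz : ∀ w ∈ c, w + z ∉ c) :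
    ∃ K : Set ℂ, c ⊆ K ∧ IsCompact K ∧ IsConnected K ∧ (0 : ℂ) ∈ K ∧ (∀ w ∈ K, -w ∈ K) ∧
      (∀ w, w ≠ 0 → w ∈ K ∨ w⁻¹ ∈ K) ∧ (∀ w ∈ K, w + z ∉ K) ∧ IsConnected Kᶜ := by
  have hccl : IsClosed c := hck.isClosed
  have hcp : IsPreconnected c := hcc.isPreconnected
  obtain ⟨r, hr, hball⟩ : ∃ r > 0, ∀ w ∈ c, r ≤ ‖w‖ := by
    have h1 : cᶜ ∈ 𝓝 (0 : ℂ) := hccl.isOpen_compl.mem_nhds h0c
    obtain ⟨r, hr, h2⟩ := Metric.mem_nhds_iff.mp h1
    refine ⟨r, hr, fun w hw => ?_⟩
    by_contra hlt
    push Not at hlt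
    exact h2 (by simpa [Metric.mem_ball] using hlt) hw
  obtain ⟨R0, hR0'⟩ := hck.isBounded.exists_norm_le
  set R : ℝ := max R0 1 with hR
  have hR0 : 0 < R := lt_of_lt_of_le one_pos (le_max_right _ _)
  have hcb : ∀ w ∈ c, ‖w‖ ≤ R := fun w hw => (hR0' w hw).trans (le_max_left _ _)
  set U : Set ℂ := unb c R with hU
  set K : Set ℂ := fil c R with hK
  have hKk : IsCompact K := fil_compact hccl hR0.le hcb
  have hKc : IsConnected K := fil_connected hccl hcc hR0.le hcb
  have hcK : c ⊆ K := subset_fil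
  have hfar : {w : ℂ | R < ‖w‖} ⊆ U := far_subset_unb hR0.le hcb
  have h0K : (0 : ℂ) ∈ K := by
    intro h0U
    refine unb_not_bounded hR0.le hcb (symm_separates hck hcc (x := 0) ?_
      (unb_preconnected (c := c) (R := R)) ?_ h0U)
    · intro w hw
      simpa using hcneg w hw
    · rw [Set.disjoint_left]
      intro w hw hwc
      exact unb_subset_compl hw hwc
  have hUneg : ∀ w ∈ U, -w ∈ U := by
    have h1 : (fun w : ℂ => -w) '' U ⊆ U := by
      apply unb_maximal hR0.le hcb (unb_preconnected.image _ (by fun_prop))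
        (x := ((R + 1 : ℝ) : ℂ))
      · rintro _ ⟨w, hw, rfl⟩ hwc
        have := hcneg _ hwc
        simp only [neg_neg] at this
        exact unb_subset_compl hw this
      · refine ⟨-((R + 1 : ℝ) : ℂ), hfar ?_, by simp⟩
        simp only [Set.mem_ofPred_eq, norm_neg, Complex.norm_real]
        rw [Real.norm_of_nonneg (by linarith)]
        linarith
      · apply hfar
        simp only [Set.mem_ofPred_eq, Complex.norm_real]
        rw [Real.norm_of_nonneg (by linarith)]
        linarith
    intro w hw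
    exact h1 ⟨w, hw, rfl⟩
  have hKneg : ∀ w ∈ K, -w ∈ K := by
    intro w hw hwU
    apply hw
    have := hUneg _ hwU
    rwa [neg_neg] at this
  have hcompl : IsConnected Kᶜ := by
    have e : Kᶜ = U := compl_compl _
    rw [e]
    refine ⟨⟨((R + 1 : ℝ) : ℂ), hfar ?_⟩, unb_preconnected⟩
    simp only [Set.mem_ofPred_eq, Complex.norm_real]
    rw [Real.norm_of_nonneg (by linarith)]
    linarith
  refine ⟨K, hcK, hKk, hKc, h0K, hKneg, ?_, ?_, hcompl⟩
  · -- self-duality
    intro w hw0
    by_contra hcon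
    push Not at hcon
    obtain ⟨hwK, hwK'⟩ := hcon
    have hwU : w ∈ U := not_not.mp hwK
    have hwU' : w⁻¹ ∈ U := not_not.mp hwK'
    have h0U : ∀ y ∈ U, y ≠ 0 := by
      rintro y hy rfl
      exact h0K hy
    set U' : Set ℂ := (fun y : ℂ => y⁻¹) '' U with hU'
    have hU'p : IsPreconnected U' := by
      apply unb_preconnected.image
      exact continuousOn_id.inv₀ h0U
    have hU'c : U' ⊆ cᶜ := by
      rintro _ ⟨y, hy, rfl⟩ hyc
      have := hcinv _ hyc
      simp only [inv_inv] at this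
      exact unb_subset_compl hy this
    have hballc : Metric.ball (0 : ℂ) r ⊆ cᶜ := by
      intro y hy hyc
      have := hball y hyc
      rw [Metric.mem_ball, dist_zero_right] at hy
      linarith
    -- a common point
    have hri : 0 < r⁻¹ := inv_pos.mpr hr
    set y0 : ℂ := ((R + r⁻¹ + 1 : ℝ) : ℂ) with hy0
    have hy0n : ‖y0‖ = R + r⁻¹ + 1 := by
      rw [hy0, Complex.norm_real, Real.norm_of_nonneg (by linarith)]
    have hy0U : y0 ∈ U := hfar (by simp only [Set.mem_ofPred_eq, hy0n]; linarith)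
    have hy0b : y0⁻¹ ∈ Metric.ball (0 : ℂ) r := by
      rw [Metric.mem_ball, dist_zero_right, norm_inv, hy0n]
      rw [inv_lt_comm₀ (by linarith) hr]
      linarith
    have hbig : IsPreconnected (U' ∪ Metric.ball (0 : ℂ) r) :=
      IsPreconnected.union y0⁻¹ ⟨y0, hy0U, rfl⟩ hy0b hU'p (convex_ball (0 : ℂ) r).isPreconnected
    have hsub := unb_maximal (V := U' ∪ Metric.ball (0 : ℂ) r) hR0.le hcb hbig
      (Set.union_subset hU'c hballc) (x := w) (Or.inl ⟨w⁻¹, hwU', by simp⟩) hwU
    exact h0K (hsub (Or.inr (Metric.mem_ball_self hr)))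
  · -- disjointness
    -- the translate of `c` lies in `U`
    have hplus : ∀ w ∈ c, w + z ∈ U := by
      by_contra hcon
      push Not at hcon
      obtain ⟨w1, hw1, hw1U⟩ := hcon
      set c1 : Set ℂ := (fun w => w + z) '' c with hc1
      have hc1p : IsPreconnected c1 := hcp.image _ (by fun_prop)
      have hc1c : c1 ⊆ cᶜ := by
        rintro _ ⟨w, hw, rfl⟩
        exact hcz w hw
      have hnone : ∀ w ∈ c, w + z ∈ K := by
        intro w hw hwU
        exact hw1U (unb_maximal hR0.le hcb hc1p hc1c (x := w + z) ⟨w, hw, rfl⟩ hwU ⟨w1, hw1, rfl⟩)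
      have hint : ∀ w ∈ c, w + z ∈ interior K := fun w hw =>
        diff_subset_interior hccl hR0.le hcb (hnone w hw) (hcz w hw)
      -- extremal points of `K` in the real direction are in `c`
      obtain ⟨p, hp, hpmax⟩ := hKk.exists_isMaxOn hKc.nonempty continuous_re.continuousOn
      obtain ⟨q, hq, hqmin⟩ := hKk.exists_isMinOn hKc.nonempty continuous_re.continuousOn
      have hmax : ∀ w ∈ interior K, w.re < p.re := by
        intro w hw
        obtain ⟨e, he, hb⟩ := Metric.mem_nhds_iff.mp (mem_interior_iff_mem_nhds.mp hw)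
        have h1 : w + ((e / 2 : ℝ) : ℂ) ∈ K := by
          apply hb
          rw [Metric.mem_ball, dist_eq_norm, add_sub_cancel_left, Complex.norm_real,
            Real.norm_of_nonneg (by positivity)]
          linarith
        have h2 : (w + ((e / 2 : ℝ) : ℂ)).re ≤ p.re := hpmax h1
        simp only [add_re, ofReal_re] at h2
        linarith
      have hmin : ∀ w ∈ interior K, q.re < w.re := by
        intro w hw
        obtain ⟨e, he, hb⟩ := Metric.mem_nhds_iff.mp (mem_interior_iff_mem_nhds.mp hw)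
        have h1 : w - ((e / 2 : ℝ) : ℂ) ∈ K := by
          apply hb
          rw [Metric.mem_ball, dist_eq_norm, sub_sub_cancel_left, norm_neg, Complex.norm_real,
            Real.norm_of_nonneg (by positivity)]
          linarith
        have h2 : q.re ≤ (w - ((e / 2 : ℝ) : ℂ)).re := hqmin h1
        simp only [sub_re, ofReal_re] at h2
        linarith
      have hpc : p ∈ c := by
        by_contra hpc
        exact lt_irrefl _ (hmax p (diff_subset_interior hccl hR0.le hcb hp hpc))
      have hqc : q ∈ c := by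
        by_contra hqc
        exact lt_irrefl _ (hmin q (diff_subset_interior hccl hR0.le hcb hq hqc))
      have h1 := hmax _ (hint p hpc)
      have h2 := hmin _ (hint q hqc)
      simp only [add_re] at h1 h2
      linarith
    have hminus : ∀ w ∈ c, w - z ∈ U := by
      intro w hw
      have := hUneg _ (hplus _ (hcneg w hw))
      rwa [show -(-w + z) = w - z by ring] at this
    intro w hw hwz
    set A : Set ℂ := K ∩ (fun w => w + z) ⁻¹' K with hA
    have hAo : IsOpen A := by
      rw [isOpen_iff_mem_nhds]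
      rintro y ⟨hy1, hy2⟩
      have hyc : y ∉ c := fun h => hy2 (hplus y h)
      have hyc2 : y + z ∉ c := by
        intro h
        have := hminus _ h
        rw [add_sub_cancel_right] at this
        exact hy1 this
      have i1 : K ∈ 𝓝 y :=
        mem_interior_iff_mem_nhds.mp (diff_subset_interior hccl hR0.le hcb hy1 hyc)
      have i2 : K ∈ 𝓝 (y + z) :=
        mem_interior_iff_mem_nhds.mp (diff_subset_interior hccl hR0.le hcb hy2 hyc2)
      have i3 : (fun w => w + z) ⁻¹' K ∈ 𝓝 y :=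
        (show Continuous (fun w : ℂ => w + z) by fun_prop).continuousAt.preimage_mem_nhds i2
      exact Filter.inter_mem i1 i3
    have hAc : IsClosed A :=
      hKk.isClosed.inter (hKk.isClosed.preimage (by fun_prop))
    have hAu : A = Set.univ := IsClopen.eq_univ ⟨hAc, hAo⟩ ⟨w, hw, hwz⟩
    have h1 : ((R + 1 : ℝ) : ℂ) ∈ A := by rw [hAu]; trivial
    apply h1.1
    apply hfar
    simp only [Set.mem_ofPred_eq, Complex.norm_real]
    rw [Real.norm_of_nonneg (by linarith)]
    linarith

/-- The self-dual continuum of an odd Lyapunov function. -/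
theorem exists_continuum {h : ℂ → ℝ} (hcont : Continuous h) (heven : ∀ w, h (-w) = h w)
    (hinv : ∀ w, w ≠ 0 → h w⁻¹ = -h w) {d : ℝ} (hd : 0 < d) (hd0 : d < h 0) {z : ℂ}
    (hz : ∀ w, -d ≤ h w → h (z - w) < -d) :
    ∃ K : Set ℂ, IsCompact K ∧ IsConnected K ∧ (0 : ℂ) ∈ K ∧ (∀ w ∈ K, -w ∈ K) ∧
      (∀ w, w ≠ 0 → w ∈ K ∨ w⁻¹ ∈ K) ∧ (∀ w ∈ K, w + z ∉ K) ∧ IsConnected Kᶜ := by
  set T : Set ℂ := {w | |h w| ≤ d} with hT
  have hTc : IsClosed T := isClosed_le (continuous_abs.comp hcont) continuous_const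
  have h0T : (0 : ℂ) ∉ T := by
    simp only [hT, Set.mem_ofPred_eq, not_le]
    exact lt_of_lt_of_le hd0 (le_abs_self _)
  have hTinv : ∀ w ∈ T, w⁻¹ ∈ T := by
    intro w hw
    have hw0 : w ≠ 0 := fun h => h0T (h ▸ hw)
    simp only [hT, Set.mem_ofPred_eq, hinv w hw0, abs_neg]
    exact hw
  have hTneg : ∀ w ∈ T, -w ∈ T := by
    intro w hw
    simp only [hT, Set.mem_ofPred_eq, heven]
    exact hw
  -- `T` is bounded
  obtain ⟨r, hr, hball⟩ : ∃ r > 0, ∀ w ∈ T, r ≤ ‖w‖ := by
    have h1 : Tᶜ ∈ 𝓝 (0 : ℂ) := hTc.isOpen_compl.mem_nhds h0T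
    obtain ⟨r, hr, h2⟩ := Metric.mem_nhds_iff.mp h1
    refine ⟨r, hr, fun w hw => ?_⟩
    by_contra hlt
    push Not at hlt
    exact h2 (by simpa [Metric.mem_ball] using hlt) hw
  set R : ℝ := r⁻¹ with hR
  have hR0 : 0 < R := inv_pos.mpr hr
  have hTb : ∀ w ∈ T, ‖w‖ ≤ R := by
    intro w hw
    have h1 := hball _ (hTinv w hw)
    rw [norm_inv] at h1
    have h2 : 0 < ‖w‖ := lt_of_lt_of_le hr (hball w hw)
    rw [hR]
    exact (le_inv_comm₀ hr h2).mp h1
  set c : Set ℂ := connectedComponentIn T 1 with hc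
  obtain ⟨D, hD1, hD2, hD3, hD4⟩ := connect_one_neg_one hcont hinv hd
    (lt_of_lt_of_le hd0 (le_abs_self _))
  have hDT : D ⊆ T := fun w hw => hD4 w hw
  have h1T : (1 : ℂ) ∈ T := hDT hD2
  have hcT : c ⊆ T := connectedComponentIn_subset _ _
  have h1c : (1 : ℂ) ∈ c := mem_connectedComponentIn h1T
  have hm1c : (-1 : ℂ) ∈ c := hD1.subset_connectedComponentIn hD2 hDT hD3
  have hcp : IsPreconnected c := isPreconnected_connectedComponentIn
  have hcc : IsConnected c := ⟨⟨1, h1c⟩, hcp⟩
  have hccl : IsClosed c := by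
    apply isClosed_of_closure_subset
    apply hcp.closure.subset_connectedComponentIn (subset_closure h1c)
    exact closure_minimal hcT hTc
  have h0c : (0 : ℂ) ∉ c := fun h => h0T (hcT h)
  have hcneg : ∀ w ∈ c, -w ∈ c := by
    have h1 : (fun w : ℂ => -w) '' c ⊆ c := by
      apply (hcp.image _ (by fun_prop)).subset_connectedComponentIn
      · exact ⟨-1, hm1c, by simp⟩
      · rintro _ ⟨w, hw, rfl⟩
        exact hTneg w (hcT hw)
    intro w hw
    exact h1 ⟨w, hw, rfl⟩
  have hcinv : ∀ w ∈ c, w⁻¹ ∈ c := by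
    have h1 : (fun w : ℂ => w⁻¹) '' c ⊆ c := by
      apply (hcp.image _ ?_).subset_connectedComponentIn
      · exact ⟨1, h1c, by simp⟩
      · rintro _ ⟨w, hw, rfl⟩
        exact hTinv w (hcT hw)
      · exact continuousOn_id.inv₀ (fun w hw h => h0c (h ▸ hw))
    intro w hw
    exact h1 ⟨w, hw, rfl⟩
  have hcz : ∀ w ∈ c, w + z ∉ c := by
    intro w hw hwz
    have h1 := hz (w + z) (by
      have := hcT hwz
      simp only [hT, Set.mem_ofPred_eq, abs_le] at this
      exact this.1)
    rw [show z - (w + z) = -w by ring, heven] at h1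
    have h2 := hcT hw
    simp only [hT, Set.mem_ofPred_eq, abs_le] at h2
    linarith [h2.1]
  have hcb : ∀ w ∈ c, ‖w‖ ≤ R := fun w hw => hTb w (hcT hw)
  have hck : IsCompact c := by
    rw [Metric.isCompact_iff_isClosed_bounded]
    exact ⟨hccl, (isBounded_iff_forall_norm_le).mpr ⟨R, hcb⟩⟩
  obtain ⟨K, -, hK⟩ := exists_fill hck hcc h0c hcneg hcinv hcz
  exact ⟨K, hK⟩

end Pool.Agent.RSt
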