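import Mathlib

set_option autoImplicit false

/-!
# Continuous logarithms on closed subsets of the plane

Store text `MP_1366af_an_rileyplan_helper29.md`, Lemmas B and C.
-/

namespace Pool.Agent.RSt

open Complex Filter Topology Bornology

/-- On the closed set `F` the quotient `(w - u) / (w - v)` has a continuous logarithm which tends
to `0` at infinity. -/
def LogQ (F : Set ℂ) (u v : ℂ) : Prop :=
  ∃ G : ℂ → ℂ, ContinuousOn G F ∧ (∀ w ∈ F, exp (G w) = (w - u) / (w - v)) ∧
    Tendsto G (cocompact ℂ ⊓ 𝓟 F) (𝓝 0)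

theorem LogQ.symm {F : Set ℂ} {u v : ℂ} (h : LogQ F u v) : LogQ F v u := by
  obtain ⟨G, h1, h2, h3⟩ := h
  refine ⟨fun w => -G w, h1.neg, ?_, by simpa using h3.neg⟩
  intro w hw
  rw [exp_neg, h2 w hw, inv_div]

theorem LogQ.trans {F : Set ℂ} {u v x : ℂ} (hv : v ∉ F) (h : LogQ F u v) (h' : LogQ F v x) :
    LogQ F u x := by
  obtain ⟨G, h1, h2, h3⟩ := h
  obtain ⟨G', h1', h2', h3'⟩ := h'
  refine ⟨fun w => G w + G' w, h1.add h1', ?_, by simpa using h3.add h3'⟩
  intro w hw
  have : w - v ≠ 0 := sub_ne_zero.mpr fun h => hv (h ▸ hw)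
  rw [exp_add, h2 w hw, h2' w hw]
  field_simp

theorem logQ_of_near {F : Set ℂ} {u v : ℂ} {r : ℝ} (hr : ∀ w ∈ F, r ≤ ‖w - v‖) (h : ‖v - u‖ < r) :
    LogQ F u v := by
  have hr0 : 0 < r := lt_of_le_of_lt (norm_nonneg _) h
  have hne : ∀ w ∈ F, w - v ≠ 0 := by
    intro w hw h0
    have := hr w hw
    rw [h0, norm_zero] at this
    linarith
  have hlt : ∀ w ∈ F, ‖(v - u) / (w - v)‖ < 1 := by
    intro w hw
    rw [norm_div, div_lt_one (norm_pos_iff.mpr (hne w hw))]
    exact lt_of_lt_of_le h (hr w hw)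
  have hslit : ∀ w ∈ F, 1 + (v - u) / (w - v) ∈ slitPlane := by
    intro w hw
    left
    have h1 := (abs_re_le_norm ((v - u) / (w - v))).trans_lt (hlt w hw)
    rw [abs_lt] at h1
    simp only [add_re, one_re]
    linarith [h1.1]
  refine ⟨fun w => log (1 + (v - u) / (w - v)), ?_, ?_, ?_⟩
  · apply ContinuousOn.clog _ hslit
    exact continuousOn_const.add (continuousOn_const.div (continuousOn_id.sub continuousOn_const)
      hne)
  · intro w hw
    rw [exp_log (slitPlane_ne_zero (hslit w hw))]
    have := hne w hw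
    field_simp
    ring
  · have h1 : Tendsto (fun w : ℂ => 1 + (v - u) / (w - v)) (cocompact ℂ) (𝓝 (1 + 0)) := by
      apply Tendsto.const_add
      have h2 : Tendsto (fun w : ℂ => w - v) (cocompact ℂ) (cocompact ℂ) :=
        (Homeomorph.subRight v).isClosedEmbedding.tendsto_cocompact
      have h3 : Tendsto (fun w : ℂ => (w - v)⁻¹) (cocompact ℂ) (𝓝 0) :=
        (Filter.tendsto_inv₀_cobounded (α := ℂ)).comp (by
          rw [Metric.cobounded_eq_cocompact]; exact h2)
      simpa [div_eq_mul_inv] using h3.const_mul (v - u)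
    rw [add_zero] at h1
    have h2 := (continuousAt_clog (show (1 : ℂ) ∈ slitPlane by simp)).tendsto.comp h1
    rw [log_one] at h2
    exact h2.mono_left inf_le_left

/-- Lemma B. -/
theorem logQ_of_preconnected {F U : Set ℂ} (hF : IsClosed F) (hU : IsPreconnected U)
    (hd : Disjoint U F) {u v : ℂ} (hu : u ∈ U) (hv : v ∈ U) : LogQ F u v := by
  have hnot : ∀ x ∈ U, x ∉ F := fun x hx hxF => Set.disjoint_left.mp hd hx hxF
  refine hU.induction₂ (fun x y => LogQ F x y) ?_ ?_ ?_ hu hv
  · intro x hx
    have h1 : Fᶜ ∈ 𝓝 x := hF.isOpen_compl.mem_nhds (hnot x hx)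
    obtain ⟨r, hr, hball⟩ := Metric.mem_nhds_iff.mp h1
    have h2 : ∀ w ∈ F, r ≤ ‖w - x‖ := by
      intro w hw
      by_contra hlt
      push Not at hlt
      exact hball (by simpa [Metric.mem_ball, dist_eq_norm] using hlt) hw
    apply eventually_nhdsWithin_of_eventually_nhds
    filter_upwards [Metric.ball_mem_nhds x hr] with y hy
    apply LogQ.symm
    apply logQ_of_near h2
    rw [← norm_neg, neg_sub]
    simpa [Metric.mem_ball, dist_eq_norm] using hy
  · intro x y z _ hy _ h h'
    exact h.trans (hnot y hy) h'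
  · intro x y _ _ h
    exact h.symm

/-- Two continuous logarithms of the same function on a preconnected set which agree at one point
agree everywhere. -/
theorem log_unique {S : Set ℂ} (hS : IsPreconnected S) {f : ℂ → ℂ} (hf : ContinuousOn f S)
    (he : ∀ w ∈ S, exp (f w) = 1) {x y : ℂ} (hx : x ∈ S) (hy : y ∈ S) (hfx : f x = 0) :
    f y = 0 := by
  have hre : ∀ w ∈ S, (f w).re = 0 := by
    intro w hw
    have h1 := congrArg norm (he w hw)
    rw [norm_exp, norm_one, Real.exp_eq_one_iff] at h1
    exact h1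
  have hne : ∀ w ∈ S, (f w).im ≠ Real.pi ∧ (f w).im ≠ -Real.pi := by
    intro w hw
    have h1 := he w hw
    have h2 : f w = ((f w).im : ℂ) * I := by
      apply Complex.ext
      · simp [hre w hw]
      · simp
    constructor
    · intro h
      rw [h2, h, exp_pi_mul_I] at h1
      norm_num at h1
    · intro h
      rw [h2, h] at h1
      push_cast at h1
      rw [neg_mul, exp_neg, exp_pi_mul_I] at h1
      norm_num at h1
  have him : ContinuousOn (fun w => (f w).im) S := continuous_im.comp_continuousOn hf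
  have hint : (f y).im ∈ Set.Ioo (-Real.pi) Real.pi := by
    constructor
    · by_contra hcon
      push Not at hcon
      obtain ⟨w, hw, hw'⟩ := hS.intermediate_value hy hx him
        (show -Real.pi ∈ Set.Icc ((f y).im) ((f x).im) from ⟨hcon, by
          rw [hfx]; simp [Real.pi_pos.le]⟩)
      exact (hne w hw).2 hw'
    · by_contra hcon
      push Not at hcon
      obtain ⟨w, hw, hw'⟩ := hS.intermediate_value hx hy him
        (show Real.pi ∈ Set.Icc ((f x).im) ((f y).im) from ⟨by
          rw [hfx]; simp [Real.pi_pos.le], hcon⟩)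
      exact (hne w hw).1 hw'
  have h1 := he y hy
  rw [← exp_zero] at h1
  obtain ⟨n, hn⟩ := exp_eq_exp_iff_exists_int.mp h1
  have h2 : (f y).im = n * (2 * Real.pi) := by
    rw [hn]; simp
  rw [h2] at hint
  have hn0 : n = 0 := by
    have h3 : -(1 : ℝ) < 2 * n := by
      by_contra hc
      push Not at hc
      nlinarith [hint.1, Real.pi_pos]
    have h4 : (2 : ℝ) * n < 1 := by
      by_contra hc
      push Not at hc
      nlinarith [hint.2, Real.pi_pos]
    have h5 : -1 < 2 * n := by exact_mod_cast h3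
    have h6 : 2 * n < 1 := by exact_mod_cast h4
    omega
  rw [hn, hn0]
  simp

/-- Lemma C: a connected compact set which is symmetric about a point `x` outside it keeps `x` in
bounded components of its complement. -/
theorem symm_separates {M : Set ℂ} (hM : IsCompact M) (hc : IsConnected M) {x : ℂ}
    (hs : ∀ w ∈ M, 2 * x - w ∈ M) {U : Set ℂ} (hU : IsPreconnected U) (hd : Disjoint U M)
    (hx : x ∈ U) : IsBounded U := by
  by_contra hub
  obtain ⟨R, hR⟩ := hM.isBounded.exists_norm_le
  have hR' : ∀ w ∈ M, ‖w‖ ≤ max R 0 := fun w hw => (hR w hw).trans (le_max_left _ _)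
  obtain ⟨v, hvU, hv⟩ : ∃ v ∈ U, max R 0 < ‖v‖ := by
    by_contra hcon
    push Not at hcon
    exact hub ((isBounded_iff_forall_norm_le).mpr ⟨_, hcon⟩)
  have hv0 : v ≠ 0 := by
    intro h
    rw [h, norm_zero] at hv
    exact absurd hv (not_lt.mpr (le_max_right _ _))
  obtain ⟨G, hG1, hG2, -⟩ := logQ_of_preconnected hM.isClosed hU hd hx hvU
  have hslit : ∀ w ∈ M, 1 - w / v ∈ slitPlane := by
    intro w hw
    left
    have h1 : ‖w / v‖ < 1 := by
      rw [norm_div, div_lt_one (norm_pos_iff.mpr hv0)]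
      exact (hR' w hw).trans_lt hv
    have h2 := (abs_re_le_norm (w / v)).trans_lt h1
    rw [abs_lt] at h2
    simp only [sub_re, one_re]
    linarith [h2.2]
  set L : ℂ → ℂ := fun w => G w + (log (1 - w / v) + log (-v)) with hL
  have hLc : ContinuousOn L M := by
    apply hG1.add
    apply ContinuousOn.add _ continuousOn_const
    apply ContinuousOn.clog _ hslit
    exact continuousOn_const.sub (continuousOn_id.div_const v)
  have hxM : x ∉ M := fun h => Set.disjoint_left.mp hd hx h
  have hvM : v ∉ M := fun h => Set.disjoint_left.mp hd hvU h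
  have hLe : ∀ w ∈ M, exp (L w) = w - x := by
    intro w hw
    have hwv : w - v ≠ 0 := sub_ne_zero.mpr fun h => hvM (h ▸ hw)
    rw [hL]
    simp only
    rw [exp_add, exp_add, hG2 w hw, exp_log (slitPlane_ne_zero (hslit w hw)),
      exp_log (neg_ne_zero.mpr hv0)]
    field_simp
    ring
  -- the odd function
  set f : ℂ → ℂ := fun w => L (2 * x - w) - L w with hf
  have hfc : ContinuousOn f M := by
    apply ContinuousOn.sub _ hLc
    exact hLc.comp (continuousOn_const.sub continuousOn_id) (fun w hw => hs w hw)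
  have hfe : ∀ w ∈ M, exp (f w) = -1 := by
    intro w hw
    have hwx : w - x ≠ 0 := sub_ne_zero.mpr fun h => hxM (h ▸ hw)
    rw [hf]
    simp only
    rw [exp_sub, hLe w hw, hLe _ (hs w hw)]
    field_simp
    ring
  have him : ContinuousOn (fun w => (f w).im) M := continuous_im.comp_continuousOn hfc
  obtain ⟨w0, hw0⟩ := hc.nonempty
  have hodd : f (2 * x - w0) = -f w0 := by
    simp only [hf]
    rw [show 2 * x - (2 * x - w0) = w0 by ring]
    ring
  obtain ⟨w, hw, hw'⟩ : ∃ w ∈ M, (f w).im = 0 := by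
    rcases le_total 0 ((f w0).im) with h | h
    · obtain ⟨w, hw, hw'⟩ := hc.isPreconnected.intermediate_value (hs w0 hw0) hw0 him
        (show (0 : ℝ) ∈ Set.Icc ((f (2 * x - w0)).im) ((f w0).im) from ⟨by
          rw [hodd]; simpa using h, h⟩)
      exact ⟨w, hw, hw'⟩
    · obtain ⟨w, hw, hw'⟩ := hc.isPreconnected.intermediate_value hw0 (hs w0 hw0) him
        (show (0 : ℝ) ∈ Set.Icc ((f w0).im) ((f (2 * x - w0)).im) from ⟨h, by
          rw [hodd]; simpa using h⟩)
      exact ⟨w, hw, hw'⟩
  have h1 := hfe w hw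
  have h2 : f w = ((f w).re : ℂ) := by
    apply Complex.ext
    · simp
    · simp [hw']
  rw [h2, ← ofReal_exp] at h1
  have h3 := congrArg re h1
  simp only [ofReal_re, neg_re, one_re] at h3
  linarith [Real.exp_pos (f w).re]

end Pool.Agent.RSt
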