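import Mathlib

set_option autoImplicit false

/-!
# The interface walk on the triangular lattice

Store text `MP_1366af_an_rileyplan_helper29.md`, Lemma A.
-/

namespace Pool.Agent.RSt

/-- Multiplication by `ω = exp (i π / 3)` in the basis `1, ω`. -/
def om (d : ℤ × ℤ) : ℤ × ℤ := (-d.2, d.1 + d.2)

/-- Multiplication by `ω⁻¹`. -/
def omi (d : ℤ × ℤ) : ℤ × ℤ := (d.1 + d.2, -d.1)

/-- The norm form. -/
def nf (d : ℤ × ℤ) : ℤ := d.1 ^ 2 + d.1 * d.2 + d.2 ^ 2

theorem nf_om (d : ℤ × ℤ) : nf (om d) = nf d := by simp only [nf, om]; ring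

theorem nf_omi (d : ℤ × ℤ) : nf (omi d) = nf d := by simp only [nf, omi]; ring

theorem om_omi (d : ℤ × ℤ) : om (omi d) = d := by
  apply Prod.ext <;> simp [om, omi]

theorem omi_om (d : ℤ × ℤ) : omi (om d) = d := by
  apply Prod.ext <;> simp [om, omi]

/-- One step of the interface walk. -/
def nxt (s : ℤ × ℤ → Bool) (x : (ℤ × ℤ) × (ℤ × ℤ)) : (ℤ × ℤ) × (ℤ × ℤ) :=
  if s (x.1 + om x.2) then (x.1 + om x.2, omi x.2) else (x.1, om x.2)

/-- One step back. -/
def prv (s : ℤ × ℤ → Bool) (x : (ℤ × ℤ) × (ℤ × ℤ)) : (ℤ × ℤ) × (ℤ × ℤ) :=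
  if s (x.1 + omi x.2) then (x.1 + omi x.2, om x.2) else (x.1, omi x.2)

/-- States of the walk. -/
def Val (s : ℤ × ℤ → Bool) (x : (ℤ × ℤ) × (ℤ × ℤ)) : Prop :=
  s x.1 = true ∧ s (x.1 + x.2) = false ∧ nf x.2 = 1

/-- The mirror image. -/
def mir (x : (ℤ × ℤ) × (ℤ × ℤ)) : (ℤ × ℤ) × (ℤ × ℤ) := ((1, 0) - x.1 - x.2, x.2)

theorem val_nxt {s : ℤ × ℤ → Bool} {x : (ℤ × ℤ) × (ℤ × ℤ)} (h : Val s x) : Val s (nxt s x) := by
  obtain ⟨h1, h2, h3⟩ := h
  unfold nxt
  split_ifs with hs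
  · refine ⟨hs, ?_, by simpa [nf_omi] using h3⟩
    have : x.1 + om x.2 + omi x.2 = x.1 + x.2 := by
      apply Prod.ext <;> simp [om, omi] <;> ring
    simpa [this] using h2
  · exact ⟨h1, by simpa using hs, by simpa [nf_om] using h3⟩

theorem prv_nxt {s : ℤ × ℤ → Bool} {x : (ℤ × ℤ) × (ℤ × ℤ)} (h : Val s x) :
    prv s (nxt s x) = x := by
  obtain ⟨h1, h2, h3⟩ := h
  unfold nxt
  split_ifs with hs
  · have : x.1 + om x.2 + omi (omi x.2) = x.1 := by
      apply Prod.ext <;> simp [om, omi]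
      ring
    simp only [prv, this, h1, if_true, om_omi]
  · simp only [prv, omi_om, h2]
    simp

theorem mir_nxt {s : ℤ × ℤ → Bool} (hs : ∀ a, s ((1, 0) - a) = !s a)
    (x : (ℤ × ℤ) × (ℤ × ℤ)) : mir (nxt s x) = prv s (mir x) := by
  have e : (1, 0) - x.1 - x.2 + omi x.2 = (1, 0) - (x.1 + om x.2) := by
    apply Prod.ext <;> simp [om, omi] <;> ring
  unfold nxt
  split_ifs with h
  · simp only [mir, prv, e, hs, h]
    simp only [Bool.not_true, Bool.false_eq_true, if_false]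
    apply Prod.ext
    · apply Prod.ext <;> simp [om, omi] <;> ring
    · rfl
  · simp only [mir, prv, e, hs]
    have h' : s (x.1 + om x.2) = false := by simpa using h
    simp only [h', Bool.not_false, if_true]
    apply Prod.ext
    · apply Prod.ext <;> simp [om, omi] <;> ring
    · rfl

theorem val_iter {s : ℤ × ℤ → Bool} {x : (ℤ × ℤ) × (ℤ × ℤ)} (h : Val s x) (n : ℕ) :
    Val s ((nxt s)^[n] x) := by
  induction n with
  | zero => simpa using h
  | succ n ih => rw [Function.iterate_succ_apply']; exact val_nxt ih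

theorem nf_one_cases {d : ℤ × ℤ} (h : nf d = 1) :
    d = (1, 0) ∨ d = (0, 1) ∨ d = (-1, 1) ∨ d = (-1, 0) ∨ d = (0, -1) ∨ d = (1, -1) := by
  obtain ⟨x, y⟩ := d
  simp only [nf] at h
  have hx : x ^ 2 ≤ 1 := by nlinarith [sq_nonneg (x + 2 * y)]
  have hy : y ^ 2 ≤ 1 := by nlinarith [sq_nonneg (2 * x + y)]
  have hx1 : -1 ≤ x ∧ x ≤ 1 := ⟨by nlinarith, by nlinarith⟩
  have hy1 : -1 ≤ y ∧ y ≤ 1 := ⟨by nlinarith, by nlinarith⟩
  obtain ⟨a1, a2⟩ := hx1
  obtain ⟨b1, b2⟩ := hy1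
  interval_cases x <;> interval_cases y <;> simp_all

/-- The symmetric walk never closes. -/
theorem no_return {s : ℤ × ℤ → Bool} (hs : ∀ a, s ((1, 0) - a) = !s a)
    {x : (ℤ × ℤ) × (ℤ × ℤ)} (hx : Val s x)
    (h0 : x = ((0, 0), (1, 0)) ∨ x = ((1, 0), (-1, 0))) (m : ℕ) (hm : 0 < m) :
    (nxt s)^[m] x ≠ x := by
  classical
  intro hret
  have hex : ∃ m, 0 < m ∧ (nxt s)^[m] x = x := ⟨m, hm, hret⟩
  obtain ⟨hk0, hk⟩ := Nat.find_spec hex
  have hmin : ∀ j, j < Nat.find hex → ¬ (0 < j ∧ (nxt s)^[j] x = x) := fun j hj => Nat.find_min hex hj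
  set M := Nat.find hex with hM
  clear_value M
  have hmx : mir x = x := by
    rcases h0 with h | h <;> subst h <;> simp [mir] <;> rfl
  -- the mirror reverses the walk
  have key : ∀ k, k ≤ M → mir ((nxt s)^[k] x) = (nxt s)^[M - k] x := by
    intro k
    induction k with
    | zero => intro _; simp [hmx, hk]
    | succ k ih =>
      intro hkM
      have h1 := ih (by omega)
      rw [Function.iterate_succ_apply', mir_nxt hs, h1]
      have h2 : M - k = (M - (k + 1)) + 1 := by omega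
      rw [h2, Function.iterate_succ_apply']
      exact prv_nxt (val_iter hx _)
  rcases Nat.even_or_odd' M with ⟨k, hk2 | hk2⟩
  · -- even
    have h1 := key k (by omega)
    have h2 : M - k = k := by omega
    rw [h2] at h1
    have hv := val_iter hx k
    have hne : (nxt s)^[k] x ≠ x := by
      intro h
      exact hmin k (by omega) ⟨by omega, h⟩
    obtain ⟨⟨⟨a1, a2⟩, d⟩, hy⟩ : ∃ y, (nxt s)^[k] x = y := ⟨_, rfl⟩
    rw [hy] at h1 hv hne
    obtain ⟨v1, v2, v3⟩ := hv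
    simp only [mir, Prod.mk.injEq] at h1
    have hd := nf_one_cases v3
    have e1 := congrArg Prod.fst h1.1
    have e2 := congrArg Prod.snd h1.1
    rcases hd with h | h | h | h | h | h <;> subst h
    · simp at e1 e2
      have ha1 : a1 = 0 := by omega
      have ha2 : a2 = 0 := by omega
      subst ha1 ha2
      rcases h0 with h | h
      · exact hne h.symm
      · rw [h] at hx
        obtain ⟨w1, w2, -⟩ := hx
        simp at v2 w1
        rw [v2] at w1
        exact absurd w1 (by simp)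
    · simp at e1 e2
      omega
    · simp at e1 e2
      omega
    · simp at e1 e2
      have ha1 : a1 = 1 := by omega
      have ha2 : a2 = 0 := by omega
      subst ha1 ha2
      rcases h0 with h | h
      · rw [h] at hx
        obtain ⟨w1, w2, -⟩ := hx
        simp at v1 w2
        rw [v1] at w2
        exact absurd w2 (by simp)
      · exact hne h.symm
    · simp at e1 e2
      omega
    · simp at e1 e2
      omega
  · -- odd
    have h1 := key k (by omega)
    have h2 : M - k = k + 1 := by omega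
    rw [h2, Function.iterate_succ_apply'] at h1
    have hv := val_iter hx k
    obtain ⟨⟨⟨a1, a2⟩, d⟩, hy⟩ : ∃ y, (nxt s)^[k] x = y := ⟨_, rfl⟩
    rw [hy] at h1 hv
    have h3 : d = (nxt s ((a1, a2), d)).2 := by
      have := congrArg Prod.snd h1
      simpa [mir] using this
    obtain ⟨v1, v2, v3⟩ := hv
    have hd := nf_one_cases v3
    unfold nxt at h3
    split_ifs at h3 <;> rcases hd with h | h | h | h | h | h <;> subst h <;>
      simp [om, omi] at h3

theorem iter_inj {s : ℤ × ℤ → Bool} (hs : ∀ a, s ((1, 0) - a) = !s a)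
    {x : (ℤ × ℤ) × (ℤ × ℤ)} (hx : Val s x)
    (h0 : x = ((0, 0), (1, 0)) ∨ x = ((1, 0), (-1, 0))) :
    Function.Injective fun n => (nxt s)^[n] x := by
  have main : ∀ i j : ℕ, i < j → (nxt s)^[i] x ≠ (nxt s)^[j] x := by
    intro i
    induction i with
    | zero =>
      intro j hj h
      exact no_return hs hx h0 j hj h.symm
    | succ i ih =>
      intro j hj h
      obtain ⟨k, rfl⟩ : ∃ k, j = k + 1 := ⟨j - 1, by omega⟩
      rw [Function.iterate_succ_apply', Function.iterate_succ_apply'] at h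
      have h1 := congrArg (prv s) h
      rw [prv_nxt (val_iter hx i), prv_nxt (val_iter hx k)] at h1
      exact ih k (by omega) h1
  intro i j hij
  rcases lt_trichotomy i j with h | h | h
  · exact absurd hij (main i j h)
  · exact h
  · exact absurd hij.symm (main j i h)

/-- The walk leaves every bounded region. -/
theorem unbdd {s : ℤ × ℤ → Bool} (hs : ∀ a, s ((1, 0) - a) = !s a)
    {x : (ℤ × ℤ) × (ℤ × ℤ)} (hx : Val s x)
    (h0 : x = ((0, 0), (1, 0)) ∨ x = ((1, 0), (-1, 0))) (B : ℕ) :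
    ∃ n : ℕ, (B : ℤ) < |((nxt s)^[n] x).1.1| ∨ (B : ℤ) < |((nxt s)^[n] x).1.2| := by
  by_contra hcon
  push Not at hcon
  have hfin : (((Finset.Icc (-(B : ℤ)) B ×ˢ Finset.Icc (-(B : ℤ)) B) ×ˢ
      (Finset.Icc (-1 : ℤ) 1 ×ˢ Finset.Icc (-1 : ℤ) 1) : Finset ((ℤ × ℤ) × (ℤ × ℤ))) :
      Set ((ℤ × ℤ) × (ℤ × ℤ))).Finite := Finset.finite_toSet _
  have hsub : Set.range (fun n => (nxt s)^[n] x) ⊆
      (((Finset.Icc (-(B : ℤ)) B ×ˢ Finset.Icc (-(B : ℤ)) B) ×ˢ
      (Finset.Icc (-1 : ℤ) 1 ×ˢ Finset.Icc (-1 : ℤ) 1) : Finset ((ℤ × ℤ) × (ℤ × ℤ))) :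
      Set ((ℤ × ℤ) × (ℤ × ℤ))) := by
    rintro _ ⟨n, rfl⟩
    obtain ⟨h1, h2⟩ := hcon n
    have h3 := nf_one_cases (val_iter hx n).2.2
    rw [abs_le] at h1 h2
    simp only [Finset.coe_product, Finset.coe_Icc, Set.mem_prod, Set.mem_Icc]
    refine ⟨⟨h1, h2⟩, ?_⟩
    rcases h3 with h | h | h | h | h | h <;> rw [h] <;> norm_num
  exact Set.infinite_range_of_injective (iter_inj hs hx h0) (hfin.subset hsub)

end Pool.Agent.RSt
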